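import Pool.Agent.H61.KA.Rank

/-!
# Kahn's two-dimensional basis conjecture for almost all rows and columns

For every `eps > 0` and all `n ≥ N(eps)`, every field `K` and every `n × n` array of bases of `Kⁿ`,
any `(1 - eps) n` rows and any `(1 - eps) n` columns can be made bases by one selection.

Proof (files `Pool/Agent/H61/KA`). It suffices to find, for `m ≤ (1 - eps) n`, a selection with independent rows and
columns in an `m × m` array; the other cells of the chosen rows and columns are then filled greedily. Every row and
every column carries a deletion system: at each pick of the line, a bijective exchange deletes exactly one element from
each basis of the line which is still to be used. The cells are processed in `m` time steps (one cell of each line per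
step), and a random pick is made in the intersection of the two alive sets of the cell. A derandomised Azuma
inequality with a union bound over all possible histories of one line shows that in almost all cells the two alive sets
intersect as if they were random; the few exceptional cells are repaired by switchings.
-/

set_option autoImplicit false

namespace Pool.Agent.Results.MP_c8782e_co.AlmostAllLines

theorem result (eps : ℝ) (heps : 0 < eps) : ∃ N : ℕ, ∀ n : ℕ, N ≤ n →
    ∀ (K : Type*) [Field K] (B : Fin n → Fin n → Module.Basis (Fin n) K (Fin n → K))
      (I J : Finset (Fin n)), (I.card : ℝ) ≤ (1 - eps) * n → (J.card : ℝ) ≤ (1 - eps) * n →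
        ∃ σ : Fin n → Fin n → Fin n, (∀ i ∈ I, LinearIndependent K fun j => B i j (σ i j)) ∧
          ∀ j ∈ J, LinearIndependent K fun i => B i j (σ i j) :=
  Pool.Agent.H61.KA.kahn_lines eps heps

end Pool.Agent.Results.MP_c8782e_co.AlmostAllLines
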