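import Pool.Agent.H61.KA.Rank

/-!
# All rows are bases and all columns have almost full rank

For every `eps > 0` and all `n ≥ N(eps)`, every field `K` and every `n × n` array of bases of `Kⁿ` has a
selection for which all `n` rows are bases and all `n` columns have rank at least `(1 - eps) n`.

Proof: apply the asymptotic theorem (`Pool/Agent/H61/KA`) in `K^(n + r)`, with `r` about `eps n`, to the bases
`B i j` completed by `r` new basis vectors; each line then uses at most `r` new vectors, and the cells with new
vectors are filled again greedily along the rows.
-/

set_option autoImplicit false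

namespace Pool.Agent.Results.MP_c8782e_co.BasisRows

theorem result (eps : ℝ) (heps : 0 < eps) : ∃ N : ℕ, ∀ n : ℕ, N ≤ n →
    ∀ (K : Type*) [Field K] (B : Fin n → Fin n → Module.Basis (Fin n) K (Fin n → K)),
      ∃ σ : Fin n → Fin n → Fin n, (∀ i, LinearIndependent K fun j => B i j (σ i j)) ∧
        ∀ j, (1 - eps) * n ≤
          Module.finrank K (Submodule.span K (Set.range fun i => B i j (σ i j))) :=
  Pool.Agent.H61.KA.kahn_rank eps heps

end Pool.Agent.Results.MP_c8782e_co.BasisRows
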