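import Pool.Agent.H44.Kahn.ATDef

/-!
# A dual form of Kahn's basis conjecture for all arrays of bases

`alonTarsi n` is the number of even minus the number of odd Latin squares of order `n`.
Let `n + 1` be a prime `p` and `K` a field of characteristic `0` or `p` (or let `alonTarsi n` be
nonzero in `K`). For every array of bases `B i j` of `Kⁿ` there is a selection such that every row
is a basis and in every column the vectors dual to the selected ones (in the dual bases of the
`B i j`) form a basis of the dual space.
-/

set_option autoImplicit false

open Matrix Pool.Agent.H44.Kahn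

namespace Pool.Agent.Results.MP_c8782e_co.DualColumns

theorem result {K : Type*} [Field K] (n : ℕ)
    (hn : ((alonTarsi n : ℤ) : K) ≠ 0 ∨ ((n + 1).Prime ∧ (CharZero K ∨ CharP K (n + 1))))
    (B : Fin n → Fin n → Module.Basis (Fin n) K (Fin n → K)) :
    ∃ σ : Fin n → Fin n → Fin n,
      (∀ i, LinearIndependent K fun j => B i j (σ i j)) ∧
      ∀ j, LinearIndependent K fun i => (B i j).coord (σ i j) :=
  dual_version (AT_ne_zero_of hn) B

end Pool.Agent.Results.MP_c8782e_co.DualColumns
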