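import Pool.Agent.H44.Kahn.ATDef

/-!
# Kahn's basis conjecture for arrays of orthogonal bases

`alonTarsi n` is the number of even minus the number of odd Latin squares of order `n`.
Let `n + 1` be a prime `p` and `K` a field of characteristic `0` or `p` (or let `alonTarsi n` be
nonzero in `K`). Let `B i j` be bases of `Kⁿ` such that every `B i j` is orthogonal for the form
`x, y ↦ xᵀ (H j) (G i) θ(y)`, with `G i`, `H j` invertible and `θ` an endomorphism of `K`. Then
there is a selection all rows and columns of which are bases. The case `H j = 1`, `θ = id` is that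
of arrays in which all bases of a row are orthogonal for one nondegenerate form; it contains
the case `B i j = B i` (Rota), since every basis is orthogonal for some form.
-/

set_option autoImplicit false

open Matrix Pool.Agent.H44.Kahn

namespace Pool.Agent.Results.MP_c8782e_co.OrthogonalArrays

theorem result {K : Type*} [Field K] (n : ℕ)
    (hn : ((alonTarsi n : ℤ) : K) ≠ 0 ∨ ((n + 1).Prime ∧ (CharZero K ∨ CharP K (n + 1))))
    (B : Fin n → Fin n → Module.Basis (Fin n) K (Fin n → K))
    (θ : K →+* K) (G H : Fin n → Matrix (Fin n) (Fin n) K)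
    (hG : ∀ i, IsUnit (G i)) (hH : ∀ j, IsUnit (H j))
    (h : ∀ i j k l, k ≠ l → ∑ x, ∑ y, B i j k x * (H j * G i) x y * θ (B i j l y) = 0) :
    ∃ σ : Fin n → Fin n → Fin n,
      (∀ i, LinearIndependent K fun j => B i j (σ i j)) ∧
      ∀ j, LinearIndependent K fun i => B i j (σ i j) := by
  refine orth_version (AT_ne_zero_of hn) B θ G H hG hH fun i j k l hkl => ?_
  have h1 := h i j k l hkl
  rw [Finset.sum_comm] at h1
  rw [← h1]
  simp only [dotProduct, Matrix.vecMul, Finset.sum_mul]

end Pool.Agent.Results.MP_c8782e_co.OrthogonalArrays
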